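import Pool.Agent.H86.CMLib9.W5h86.LZ.Inv
import Pool.Agent.H86.CMLib.Y519.AS.Nonv

set_option autoImplicit false

/-!
# Uniqueness of the invariant forms
-/

open Module Pool.Agent.Y519.AS

namespace Pool.Agent.W5h86.LZ

variable {κ : Type} [Fintype κ] [DecidableEq κ] {V : Type} [AddCommGroup V] [Module ℝ V]

/-- The set `K` contains operators which exchange the basis vectors. -/
def ExchK (e : κ × Fin 2 → V) (K : Set (V →ₗ[ℝ] V)) : Prop :=
  ∀ i j, i ≠ j → ∃ T ∈ K, ∃ c : ℝ, (∀ ε, T (e (j, ε)) = e (i, ε)) ∧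
    (∀ ε, T (e (i, ε)) = c • e (j, ε)) ∧ ∀ k, k ≠ i → k ≠ j → ∀ ε, T (e (k, ε)) = 0

section

variable {N : Type} [Fintype N] [DecidableEq N]

omit [Fintype κ] [DecidableEq κ] in
lemma ExchK.exch {e : κ × Fin 2 → V} {K : Set (V →ₗ[ℝ] V)} (h : ExchK e K)
    {ψ : V [⋀^N]→ₗ[ℝ] ℝ} (hψ : ∀ T ∈ K, Kills T ψ) : Exch e ψ := by
  intro i j hij
  obtain ⟨T, hT, c, h1, h2, h3⟩ := h i j hij
  exact ⟨T, c, hψ T hT, h1, h2, h3⟩

lemma Kills.sub {T : V →ₗ[ℝ] V} {ψ φ : V [⋀^N]→ₗ[ℝ] ℝ} (h1 : Kills T ψ) (h2 : Kills T φ)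
    (c : ℝ) : Kills T (ψ - c • φ) := by
  intro v
  simp only [AlternatingMap.sub_apply, AlternatingMap.smul_apply, Finset.sum_sub_distrib,
    ← Finset.smul_sum]
  rw [h1 v, h2 v, smul_zero, sub_zero]

end

/-- **The invariant forms are unique up to a factor.** -/
theorem unique (e : Basis (κ × Fin 2) ℝ V) {K : Set (V →ₗ[ℝ] V)} (hK : ExchK e K) {k : ℕ}
    (hk : 2 * k ≠ Fintype.card κ) (ψ φ : V [⋀^Fin k × Fin 2]→ₗ[ℝ] ℝ) (hψ : ∀ T ∈ K, Kills T ψ)
    (hφ : ∀ T ∈ K, Kills T φ)
    (hφ0 : ∀ α : Fin k → κ, Function.Injective α → φ (fun r => e (α r.1, r.2)) ≠ 0) :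
    ∃ c : ℝ, ψ = c • φ := by
  have hcard : Fintype.card (Fin k × Fin 2) ≠ Fintype.card κ := by
    rw [Fintype.card_prod, Fintype.card_fin, Fintype.card_fin, mul_comm]
    exact hk
  by_cases hα : ∃ α : Fin k → κ, Function.Injective α
  · obtain ⟨α, hα⟩ := hα
    have h0 := hφ0 α hα
    set s0 : Fin k × Fin 2 → κ × Fin 2 := fun r => (α r.1, r.2) with hs0
    have hi : Function.Injective s0 := by
      rintro ⟨r, ε⟩ ⟨r', ε'⟩ h
      simp only [hs0, Prod.mk.injEq] at h
      exact Prod.ext (hα h.1) h.2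
    have hp : Paired s0 := by
      rintro ⟨r, ε⟩ a δ h
      refine ⟨(r, 1 - ε), ?_⟩
      simp only [hs0, Prod.mk.injEq] at h ⊢
      exact ⟨h.1, by rw [h.2]⟩
    refine ⟨ψ (fun r => e (s0 r)) / φ (fun r => e (s0 r)), ?_⟩
    rw [← sub_eq_zero]
    have hex : Exch e (ψ - (ψ (fun r => e (s0 r)) / φ (fun r => e (s0 r))) • φ) :=
      hK.exch fun T hT => (hψ T hT).sub (hφ T hT) _
    have hz : (ψ - (ψ (fun r => e (s0 r)) / φ (fun r => e (s0 r))) • φ)
        (fun r => e (s0 r)) = 0 := by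
      rw [AlternatingMap.sub_apply, AlternatingMap.smul_apply, smul_eq_mul, div_mul_cancel₀ _ h0,
        sub_self]
    refine e.ext_alternating fun v hv => ?_
    rw [AlternatingMap.zero_apply]
    by_cases hvp : Paired v
    · exact zero_of_paired' hex hi hp hz hv hvp
    · exact zero_of_unpaired hex hv hcard hvp
  · refine ⟨0, ?_⟩
    rw [zero_smul]
    refine e.ext_alternating fun v hv => ?_
    exfalso
    apply hα
    have h1 := Fintype.card_le_of_injective v hv
    rw [Fintype.card_prod, Fintype.card_prod, Fintype.card_fin, Fintype.card_fin] at h1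
    have h2 : Fintype.card (Fin k) ≤ Fintype.card κ := by
      rw [Fintype.card_fin]
      omega
    obtain ⟨f⟩ := Function.Embedding.nonempty_of_card_le h2
    exact ⟨f, f.injective⟩

/-- the power of a bilinear form -/
noncomputable def pw (E : V →ₗ[ℝ] V →ₗ[ℝ] ℝ) (k : ℕ) : V [⋀^Fin k × Fin 2]→ₗ[ℝ] ℝ :=
  MultilinearMap.alternatization (prodM fun _ : Fin k => E)

lemma pw_apply (E : V →ₗ[ℝ] V →ₗ[ℝ] ℝ) (k : ℕ) (v : Fin k × Fin 2 → V) :
    pw E k v = ∑ σ : Equiv.Perm (Fin k × Fin 2), ((Equiv.Perm.sign σ : ℤ) : ℝ) *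
      ∏ m, E (v (σ (m, 0))) (v (σ (m, 1))) := alternatization_prodM _ _

omit [Fintype κ] [DecidableEq κ] in
/-- the power of the form does not vanish -/
lemma pw_ne_zero {E : V →ₗ[ℝ] V →ₗ[ℝ] ℝ} (halt : ∀ v, E v v = 0) {e : κ × Fin 2 → V}
    (h0 : ∀ i j, i ≠ j → ∀ ε δ, E (e (i, ε)) (e (j, δ)) = 0)
    (h1 : ∀ i, E (e (i, 0)) (e (i, 1)) ≠ 0) {k : ℕ} {α : Fin k → κ}
    (hα : Function.Injective α) : pw E k (fun r => e (α r.1, r.2)) ≠ 0 := by
  let L : (Fin k × Fin 2 → ℝ) →ₗ[ℝ] V := Fintype.linearCombination ℝ fun r => e (α r.1, r.2)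
  have hL : ∀ r, L (Pi.single r 1) = e (α r.1, r.2) := by
    intro r
    rw [Fintype.linearCombination_apply_single, one_smul]
  have hanti : ∀ u v, E u v = -E v u := anti halt
  have h2 : ∀ (i : Fin k) (u : Fin k × Fin 2 → ℝ) (ε : Fin 2),
      E (L u) (e (α i, ε)) = u (i, 1 - ε) * E (e (α i, 1 - ε)) (e (α i, ε)) := by
    intro i u ε
    rw [Fintype.linearCombination_apply, map_sum, LinearMap.sum_apply,
      Finset.sum_eq_single (i, 1 - ε)]
    · rw [map_smul, LinearMap.smul_apply, smul_eq_mul]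
    · rintro ⟨j, δ⟩ _ hj
      rw [map_smul, LinearMap.smul_apply, smul_eq_mul]
      by_cases hij : j = i
      · subst hij
        rcases eq_or_other ε δ with rfl | rfl
        · rw [halt, mul_zero]
        · exact absurd rfl hj
      · rw [h0 _ _ (fun h => hij (hα h)), mul_zero]
    · intro h
      exact absurd (Finset.mem_univ _) h
  have h3 := pf_ne_zero (k := k) (Pi.basisFun ℝ (Fin k × Fin 2)) (E.compl₁₂ L L)
    (fun v => halt (L v)) (fun u hu => by
      funext x
      obtain ⟨i, ε⟩ := x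
      have h4 : E (L u) (L (Pi.single (i, 1 - ε) 1)) = 0 := hu _
      rw [hL, h2, other_other] at h4
      refine (mul_eq_zero.1 h4).resolve_right ?_
      have h5 : ∀ ε : Fin 2, ε = 0 ∨ ε = 1 := by decide
      rcases h5 ε with rfl | rfl
      · exact h1 _
      · rw [hanti]
        exact neg_ne_zero.2 (h1 _))
  have h4 : pf (Pi.basisFun ℝ (Fin k × Fin 2)) (fun _ => E.compl₁₂ L L) =
      pf (fun r => e (α r.1, r.2)) (fun _ : Fin k => E) := by
    unfold pf
    refine Finset.sum_congr rfl fun σ _ => ?_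
    congr 1
    refine Finset.prod_congr rfl fun m _ => ?_
    rw [LinearMap.compl₁₂_apply, Pi.basisFun_apply, Pi.basisFun_apply, hL, hL]
  rw [h4] at h3
  rw [pw, alternatization_prodM]
  exact h3

section

variable {N : Type} [Fintype N] [DecidableEq N]

/-- the alternatization of an invariant form is invariant -/
lemma kills_alternatization {T : V →ₗ[ℝ] V} {F : MultilinearMap ℝ (fun _ : N => V) ℝ}
    (h : ∀ v : N → V, ∑ r, F (Function.update v r (T (v r))) = 0) :
    Kills T (MultilinearMap.alternatization F) := by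
  intro v
  simp only [MultilinearMap.alternatization_apply]
  rw [Finset.sum_comm]
  refine Finset.sum_eq_zero fun σ _ => ?_
  rw [← Finset.smul_sum]
  have h1 : ∑ r, (MultilinearMap.domDomCongr σ F) (Function.update v r (T (v r))) =
      ∑ r, F (Function.update (fun t => v (σ t)) r (T (v (σ r)))) := by
    rw [← Equiv.sum_comp σ]
    refine Finset.sum_congr rfl fun r _ => ?_
    rw [MultilinearMap.domDomCongr_apply]
    congr 1
    funext t
    by_cases ht : t = r
    · subst ht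
      rw [Function.update_self, Function.update_self]
    · rw [Function.update_of_ne ht, Function.update_of_ne (fun h => ht (σ.injective h))]
  rw [h1, h (fun t => v (σ t)), smul_zero]

end

/-- the power of an invariant form is invariant -/
lemma kills_pw {E : V →ₗ[ℝ] V →ₗ[ℝ] ℝ} {T : V →ₗ[ℝ] V} (h : ∀ u v, E (T u) v + E u (T v) = 0)
    (k : ℕ) : Kills T (pw E k) := by
  refine kills_alternatization fun v => ?_
  rw [Fintype.sum_prod_type]
  refine Finset.sum_eq_zero fun i _ => ?_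
  rw [Fin.sum_univ_two, prodM_apply, prodM_apply]
  have h01 : ((i, 0) : Fin k × Fin 2) ≠ (i, 1) := by simp
  have h2 : ∀ (ε : Fin 2) (x : V), ∏ m, E (Function.update v (i, ε) x (m, 0))
      (Function.update v (i, ε) x (m, 1)) =
      E (Function.update v (i, ε) x (i, 0)) (Function.update v (i, ε) x (i, 1)) *
        ∏ m ∈ Finset.univ.erase i, E (v (m, 0)) (v (m, 1)) := by
    intro ε x
    rw [← Finset.mul_prod_erase _ _ (Finset.mem_univ i)]
    congr 1
    refine Finset.prod_congr rfl fun m hm => ?_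
    have hm' : m ≠ i := Finset.ne_of_mem_erase hm
    have h3 : ∀ δ : Fin 2, ((m, δ) : Fin k × Fin 2) ≠ (i, ε) := fun δ h =>
      hm' (congrArg Prod.fst h)
    rw [Function.update_of_ne (h3 0), Function.update_of_ne (h3 1)]
  rw [h2, h2, Function.update_self, Function.update_self, Function.update_of_ne h01.symm,
    Function.update_of_ne h01, ← add_mul, h, zero_mul]

end Pool.Agent.W5h86.LZ
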