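import Pool.Agent.H86.CMLib9.W5h86.LZ.PF

set_option autoImplicit false

/-!
# An adapted basis of eigenvectors
-/

open Matrix

namespace Pool.Agent.W5h86.LZ

variable {ι : Type} [Fintype ι]

/-- the hermitian form -/
def hf (H : Matrix ι ι ℂ) (u v : ι → ℂ) : ℂ := star u ⬝ᵥ (H *ᵥ v)

lemma qf_eq (H : Matrix ι ι ℂ) (u : ι → ℂ) : qf H u = (hf H u u).re := rfl

lemma hf_add_right (H : Matrix ι ι ℂ) (u v w : ι → ℂ) : hf H u (v + w) = hf H u v + hf H u w := by
  unfold hf
  rw [mulVec_add, dotProduct_add]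

lemma hf_smul_right (H : Matrix ι ι ℂ) (c : ℂ) (u v : ι → ℂ) : hf H u (c • v) = c * hf H u v := by
  unfold hf
  rw [mulVec_smul, dotProduct_smul, smul_eq_mul]

lemma hf_add_left (H : Matrix ι ι ℂ) (u v w : ι → ℂ) : hf H (u + v) w = hf H u w + hf H v w := by
  unfold hf
  rw [star_add, add_dotProduct]

lemma hf_smul_left (H : Matrix ι ι ℂ) (c : ℂ) (u v : ι → ℂ) :
    hf H (c • u) v = star c * hf H u v := by
  unfold hf
  rw [star_smul, smul_dotProduct, smul_eq_mul]

lemma hf_zero_right (H : Matrix ι ι ℂ) (u : ι → ℂ) : hf H u 0 = 0 := by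
  unfold hf
  rw [mulVec_zero, dotProduct_zero]

lemma hf_zero_left (H : Matrix ι ι ℂ) (u : ι → ℂ) : hf H 0 u = 0 := by
  unfold hf
  rw [star_zero, zero_dotProduct]

lemma hf_neg_right (H : Matrix ι ι ℂ) (u v : ι → ℂ) : hf H u (-v) = -hf H u v := by
  have h := hf_smul_right H (-1) u v
  rwa [neg_one_smul, neg_one_mul] at h

lemma hf_neg_left (H : Matrix ι ι ℂ) (u v : ι → ℂ) : hf H (-u) v = -hf H u v := by
  have h := hf_smul_left H (-1) u v
  rw [neg_one_smul] at h
  rw [h]
  simp

lemma hf_sub_right (H : Matrix ι ι ℂ) (u v w : ι → ℂ) : hf H u (v - w) = hf H u v - hf H u w := by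
  rw [sub_eq_add_neg, hf_add_right, hf_neg_right, sub_eq_add_neg]

lemma hf_sub_left (H : Matrix ι ι ℂ) (u v w : ι → ℂ) : hf H (u - v) w = hf H u w - hf H v w := by
  rw [sub_eq_add_neg, hf_add_left, hf_neg_left, sub_eq_add_neg]

lemma hf_swap {H : Matrix ι ι ℂ} (hH : H.IsHermitian) (u v : ι → ℂ) :
    hf H v u = star (hf H u v) := herm_swap hH u v

lemma hf_self {H : Matrix ι ι ℂ} (hH : H.IsHermitian) (u : ι → ℂ) :
    hf H u u = (qf H u : ℂ) := by
  have h := hf_swap hH u u
  rw [qf_eq]
  exact (Complex.conj_eq_iff_re.1 h.symm).symm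

lemma hf_skew {H X : Matrix ι ι ℂ} (h : Xᴴ * H + H * X = 0) (u v : ι → ℂ) :
    hf H (X *ᵥ u) v + hf H u (X *ᵥ v) = 0 := by
  unfold hf
  rw [star_mulVec, ← dotProduct_mulVec, mulVec_mulVec, mulVec_mulVec, ← dotProduct_add,
    ← add_mulVec, h, zero_mulVec, dotProduct_zero]

variable [DecidableEq ι]

omit [DecidableEq ι] in
lemma exists_eig (A : Matrix ι ι ℂ) (W : Submodule ℂ (ι → ℂ)) (hW : W ≠ ⊥)
    (hst : ∀ u ∈ W, A *ᵥ u ∈ W) : ∃ (μ : ℂ) (u : ι → ℂ), u ∈ W ∧ u ≠ 0 ∧ A *ᵥ u = μ • u := by
  classical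
  have hnt : Nontrivial W := Submodule.nontrivial_iff_ne_bot.2 hW
  let f : Module.End ℂ W := A.mulVecLin.restrict (p := W) (q := W) (fun u hu => hst u hu)
  obtain ⟨μ, hμ⟩ := Module.End.exists_eigenvalue f
  obtain ⟨u, hu⟩ := hμ.exists_hasEigenvector
  refine ⟨μ, u.1, u.2, fun h => hu.2 (Subtype.ext h), ?_⟩
  have h1 := congrArg Subtype.val hu.apply_eq_smul
  exact h1

lemma exists_re_ne_zero {X : Matrix ι ι ℂ} (h : 0 < tf X X) :
    ∃ (μ : ℂ) (u : ι → ℂ), μ.re ≠ 0 ∧ u ≠ 0 ∧ X *ᵥ u = μ • u := by
  by_contra hcon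
  push Not at hcon
  have hdet : ∀ μ : ℂ, (scalar ι μ - X).det = 0 → μ.re = 0 := by
    intro μ hμ
    obtain ⟨u, hu0, hu⟩ := exists_mulVec_eq_zero_iff.2 hμ
    by_contra h1
    refine hcon μ u h1 hu0 ?_
    rw [sub_mulVec, sub_eq_zero] at hu
    rw [← hu]
    simp [scalar_apply]
  have h1 : (X * X).trace.re ≤ 0 := by
    rw [trace_eq_sum_roots_charpoly]
    refine Multiset.sum_induction (fun z : ℂ => z.re ≤ 0) _ (fun a b ha hb => ?_) (by simp) ?_
    · rw [Complex.add_re]
      exact add_nonpos ha hb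
    · intro ν hν
      have h2 : (X * X).charpoly.eval ν = 0 := (Polynomial.mem_roots'.1 hν).2
      rw [eval_charpoly] at h2
      obtain ⟨μ, hμ⟩ := IsAlgClosed.exists_pow_nat_eq ν (n := 2) (by norm_num)
      have h3 : scalar ι ν - X * X = (scalar ι μ - X) * (scalar ι μ + X) := by
        have h4 : scalar ι ν = scalar ι μ * scalar ι μ := by
          rw [← map_mul, ← pow_two, hμ]
        have h5 : X * scalar ι μ = scalar ι μ * X :=
          ((scalar_commute μ (fun r => mul_comm _ _) X).eq).symm
        rw [h4, Matrix.sub_mul, Matrix.mul_add, Matrix.mul_add, h5]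
        abel
      rw [h3, det_mul, mul_eq_zero] at h2
      have h4 : μ.re = 0 := by
        rcases h2 with h2 | h2
        · exact hdet μ h2
        · have h5 : (scalar ι (-μ) - X).det = 0 := by
            have h6 : scalar ι (-μ) - X = -(scalar ι μ + X) := by
              rw [map_neg]
              abel
            rw [h6, det_neg, h2, mul_zero]
          have h6 := hdet _ h5
          rw [Complex.neg_re] at h6
          linarith
      rw [← hμ, pow_two, Complex.mul_re, h4]
      nlinarith [mul_self_nonneg μ.im]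
  unfold tf at h
  linarith

/-- the form has the signature `(1, n - 1)` -/
def Lor (H : Matrix ι ι ℂ) : Prop := ∃ w : ι → ℂ, ∀ v, v ≠ 0 → hf H w v = 0 → qf H v < 0

omit [DecidableEq ι] in
lemma Lor.false {H : Matrix ι ι ℂ} (hL : Lor H) (hH : H.IsHermitian) {u v : ι → ℂ}
    (hu : 0 ≤ qf H u) (hv : 0 ≤ qf H v) (huv : hf H u v = 0) (hu0 : u ≠ 0)
    (hind : ∀ c : ℂ, v ≠ c • u) : False := by
  obtain ⟨w, hw⟩ := hL
  by_cases hβ : hf H w u = 0
  · have := hw u hu0 hβ
    linarith
  · set α := hf H w v with hα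
    set β := -hf H w u with hβ'
    have hβ0 : β ≠ 0 := neg_ne_zero.2 hβ
    have hz : α • u + β • v ≠ 0 := by
      intro h
      refine hind (-(α / β)) ?_
      have h1 : β • v = -(α • u) := by
        rw [eq_neg_iff_add_eq_zero, add_comm]
        exact h
      have h2 : v = β⁻¹ • (β • v) := by rw [smul_smul, inv_mul_cancel₀ hβ0, one_smul]
      rw [h2, h1, smul_neg, smul_smul, neg_smul, div_eq_inv_mul]
    have h1 : hf H w (α • u + β • v) = 0 := by
      rw [hf_add_right, hf_smul_right, hf_smul_right, hβ', ← hα]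
      ring
    have h2 := hw _ hz h1
    have h3 : hf H v u = 0 := by rw [hf_swap hH, huv, star_zero]
    have h4 : hf H (α • u + β • v) (α • u + β • v) =
        (Complex.normSq α : ℂ) * qf H u + (Complex.normSq β : ℂ) * qf H v := by
      rw [hf_add_right, hf_add_left, hf_add_left, hf_smul_right, hf_smul_right, hf_smul_left,
        hf_smul_left, hf_smul_right, hf_smul_right, hf_smul_left, hf_smul_left, huv, h3,
        hf_self hH, hf_self hH, Complex.normSq_eq_conj_mul_self, Complex.normSq_eq_conj_mul_self]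
      simp only [Complex.star_def]
      ring
    have h5 : qf H (α • u + β • v) = Complex.normSq α * qf H u + Complex.normSq β * qf H v := by
      rw [qf_eq, h4]
      simp [Complex.add_re, Complex.mul_re]
    have h6 := mul_nonneg (Complex.normSq_nonneg α) hu
    have h7 := mul_nonneg (Complex.normSq_nonneg β) hv
    linarith

/-- the linear form -/
def hfL (H : Matrix ι ι ℂ) (u : ι → ℂ) : (ι → ℂ) →ₗ[ℂ] ℂ where
  toFun v := hf H u v
  map_add' _ _ := hf_add_right _ _ _ _
  map_smul' _ _ := hf_smul_right _ _ _ _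

/-- the standard form -/
def J (p q : ι) : Matrix ι ι ℂ := Matrix.of fun i j =>
  if i = p then (if j = q then 1 else 0) else
    if i = q then (if j = p then 1 else 0) else if i = j then -1 else 0

/-- the grading -/
def dg (p q : ι) (i : ι) : ℤ := if i = p then 1 else if i = q then -1 else 0

lemma exists_minus {H X : Matrix ι ι ℂ} (hdet : H.det ≠ 0) (hX : Xᴴ * H + H * X = 0) {μ : ℂ}
    {u : ι → ℂ} (hu0 : u ≠ 0) (hu : X *ᵥ u = μ • u) :
    ∃ v : ι → ℂ, v ≠ 0 ∧ X *ᵥ v = (-star μ) • v := by
  have h1 : (X - scalar ι μ).det = 0 := by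
    refine exists_mulVec_eq_zero_iff.1 ⟨u, hu0, ?_⟩
    rw [sub_mulVec, hu, sub_eq_zero]
    simp [scalar_apply]
  have h2 : (Xᴴ - scalar ι (star μ)).det = 0 := by
    have h3 : Xᴴ - scalar ι (star μ) = (X - scalar ι μ)ᴴ := by
      rw [conjTranspose_sub]
      congr 1
      rw [scalar_apply, scalar_apply, diagonal_conjTranspose]
      rfl
    rw [h3, det_conjTranspose, h1, star_zero]
  have h3 : H * (X + scalar ι (star μ)) = -((Xᴴ - scalar ι (star μ)) * H) := by
    have h4 : H * X = -(Xᴴ * H) := by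
      rw [eq_neg_iff_add_eq_zero, add_comm]
      exact hX
    have h5 : H * scalar ι (star μ) = scalar ι (star μ) * H :=
      ((scalar_commute (star μ) (fun r => mul_comm _ _) H).eq).symm
    rw [Matrix.mul_add, h4, h5, Matrix.sub_mul]
    abel
  have h4 : (X + scalar ι (star μ)).det = 0 := by
    have h5 := congrArg Matrix.det h3
    rw [det_mul, det_neg, det_mul, h2, zero_mul, mul_zero] at h5
    exact (mul_eq_zero.1 h5).resolve_left hdet
  obtain ⟨v, hv0, hv⟩ := exists_mulVec_eq_zero_iff.2 h4
  refine ⟨v, hv0, ?_⟩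
  rw [add_mulVec, ← eq_neg_iff_add_eq_zero] at hv
  rw [hv, neg_smul]
  simp [scalar_apply]

omit [DecidableEq ι] in
/-- eigenvectors with a real part are isotropic -/
lemma isotropic {H X : Matrix ι ι ℂ} (hX : Xᴴ * H + H * X = 0) {μ : ℂ}
    {u : ι → ℂ} (hu : X *ᵥ u = μ • u) : (2 * μ.re : ℂ) * hf H u u = 0 := by
  have h1 := hf_skew hX u u
  rw [hu, hf_smul_left, hf_smul_right, ← add_mul] at h1
  have h2 : star μ + μ = (2 * μ.re : ℂ) := by
    rw [Complex.star_def, add_comm, Complex.add_conj]
    push_cast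
    ring
  rw [← h2]
  exact h1

omit [DecidableEq ι] in
lemma hf_eigen {H X : Matrix ι ι ℂ} (hX : Xᴴ * H + H * X = 0) {μ : ℂ} {u v : ι → ℂ}
    (hu : X *ᵥ u = μ • u) (huv : hf H u v = 0) : hf H u (X *ᵥ v) = 0 := by
  have h1 := hf_skew hX u v
  rw [hu, hf_smul_left, huv, mul_zero, zero_add] at h1
  exact h1

lemma exists_fam {H X : Matrix ι ι ℂ} (hH : H.IsHermitian) (hL : Lor H)
    (hX : Xᴴ * H + H * X = 0) {p q : ι} {e e' : ι → ℂ} {μ μ' : ℂ} (he : X *ᵥ e = μ • e)
    (he' : X *ᵥ e' = μ' • e') (hee : hf H e e = 0) (hee' : hf H e' e = 1)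
    (s : Finset ι) (hp : p ∉ s) (hq : q ∉ s) (hpq : p ≠ q) :
    ∃ (f : ι → ι → ℂ) (ν : ι → ℂ), (∀ j ∈ s, X *ᵥ f j = ν j • f j ∧ hf H e (f j) = 0 ∧
      hf H e' (f j) = 0 ∧ hf H (f j) (f j) = -1) ∧
      ∀ i ∈ s, ∀ j ∈ s, i ≠ j → hf H (f i) (f j) = 0 := by
  induction s using Finset.induction_on with
  | empty => exact ⟨0, 0, by simp, by simp⟩
  | insert a s ha ih =>
    rw [Finset.mem_insert, not_or] at hp hq
    obtain ⟨f, ν, hf1, hf2⟩ := ih hp.2 hq.2
    let Φ : (ι → ℂ) →ₗ[ℂ] (ι → ℂ) := LinearMap.pi fun i =>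
      if i = p then hfL H e else if i = q then hfL H e' else if i ∈ s then hfL H (f i) else 0
    have hΦp : ∀ v, Φ v p = hf H e v := by
      intro v
      simp only [Φ, LinearMap.pi_apply, if_pos]
      rfl
    have hΦq : ∀ v, Φ v q = hf H e' v := by
      intro v
      simp only [Φ, LinearMap.pi_apply, if_neg hpq.symm, if_pos]
      rfl
    have hΦs : ∀ v, ∀ i ∈ s, Φ v i = hf H (f i) v := by
      intro v i hi
      have h1 : i ≠ p := fun h => hp.2 (h ▸ hi)
      have h2 : i ≠ q := fun h => hq.2 (h ▸ hi)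
      simp only [Φ, LinearMap.pi_apply, if_neg h1, if_neg h2, if_pos hi]
      rfl
    have hΦo : ∀ v i, i ≠ p → i ≠ q → i ∉ s → Φ v i = 0 := by
      intro v i h1 h2 h3
      simp only [Φ, LinearMap.pi_apply, if_neg h1, if_neg h2, if_neg h3, LinearMap.zero_apply]
    have hW : LinearMap.ker Φ ≠ ⊥ := by
      intro h
      have h1 : Function.Injective Φ := LinearMap.ker_eq_bot.1 h
      obtain ⟨v, hv⟩ := (LinearMap.injective_iff_surjective.1 h1) (Pi.single a 1)
      have h2 := congrFun hv a
      rw [hΦo v a (Ne.symm hp.1) (Ne.symm hq.1) ha, Pi.single_eq_same] at h2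
      exact zero_ne_one h2
    have hmem : ∀ v, v ∈ LinearMap.ker Φ ↔ (hf H e v = 0 ∧ hf H e' v = 0 ∧
        ∀ i ∈ s, hf H (f i) v = 0) := by
      intro v
      rw [LinearMap.mem_ker]
      constructor
      · intro h
        refine ⟨?_, ?_, fun i hi => ?_⟩
        · rw [← hΦp, h]; rfl
        · rw [← hΦq, h]; rfl
        · rw [← hΦs v i hi, h]; rfl
      · rintro ⟨h1, h2, h3⟩
        funext i
        by_cases hi1 : i = p
        · subst hi1
          rw [hΦp, h1]; rfl
        by_cases hi2 : i = q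
        · subst hi2
          rw [hΦq, h2]; rfl
        by_cases hi3 : i ∈ s
        · rw [hΦs v i hi3, h3 i hi3]; rfl
        · rw [hΦo v i hi1 hi2 hi3]; rfl
    obtain ⟨κ, u, huW, hu0, hu⟩ := exists_eig X (LinearMap.ker Φ) hW (fun v hv => by
      rw [hmem] at hv ⊢
      exact ⟨hf_eigen hX he hv.1, hf_eigen hX he' hv.2.1,
        fun i hi => hf_eigen hX (hf1 i hi).1 (hv.2.2 i hi)⟩)
    rw [hmem] at huW
    have hneg : qf H u < 0 := by
      by_contra hcon
      push Not at hcon
      have he0 : e ≠ 0 := by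
        rintro rfl
        rw [hf_zero_right] at hee'
        exact zero_ne_one hee'
      refine hL.false hH (u := e) (v := u) ?_ hcon huW.1 he0 fun c hc => ?_
      · rw [qf_eq, hee]; rfl
      · have h1 := huW.2.1
        rw [hc, hf_smul_right, hee', mul_one] at h1
        apply hu0
        rw [hc, h1, zero_smul]
    set r : ℝ := (Real.sqrt (-qf H u))⁻¹ with hr
    have hr2 : r * r * (-qf H u) = 1 := by
      have h1 : Real.sqrt (-qf H u) * Real.sqrt (-qf H u) = -qf H u :=
        Real.mul_self_sqrt (by linarith)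
      have h2 : Real.sqrt (-qf H u) ≠ 0 := (Real.sqrt_pos.2 (by linarith)).ne'
      rw [hr]
      field_simp
      rw [pow_two, h1]
    have hstar : star (r : ℂ) = (r : ℂ) := Complex.conj_ofReal r
    refine ⟨Function.update f a ((r : ℂ) • u), Function.update ν a κ, ?_, ?_⟩
    · intro j hj
      by_cases hja : j = a
      · subst hja
        rw [Function.update_self, Function.update_self]
        refine ⟨?_, ?_, ?_, ?_⟩
        · rw [mulVec_smul, hu, smul_comm]
        · rw [hf_smul_right, huW.1, mul_zero]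
        · rw [hf_smul_right, huW.2.1, mul_zero]
        · rw [hf_smul_right, hf_smul_left, hstar, hf_self hH]
          have h1 : (r : ℂ) * (r * (qf H u : ℂ)) = ((-(r * r * (-qf H u)) : ℝ) : ℂ) := by
            push_cast
            ring
          rw [h1, hr2]
          push_cast
          ring
      · rw [Function.update_of_ne hja, Function.update_of_ne hja]
        exact hf1 j (Finset.mem_of_mem_insert_of_ne hj hja)
    · intro i hi j hj hij
      by_cases hia : i = a
      · subst hia
        have hja : j ≠ i := Ne.symm hij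
        rw [Function.update_self, Function.update_of_ne hja, hf_smul_left, hf_swap hH,
          huW.2.2 j (Finset.mem_of_mem_insert_of_ne hj hja), star_zero, mul_zero]
      · rw [Function.update_of_ne hia]
        have hi' := Finset.mem_of_mem_insert_of_ne hi hia
        by_cases hja : j = a
        · subst hja
          rw [Function.update_self, hf_smul_right, huW.2.2 i hi', mul_zero]
        · rw [Function.update_of_ne hja]
          exact hf2 i hi' j (Finset.mem_of_mem_insert_of_ne hj hja) hij

/-- **The adapted basis.** -/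
theorem exists_adapted {H X : Matrix ι ι ℂ} (hH : H.IsHermitian) (hL : Lor H)
    (hdet : H.det ≠ 0) (hX : Xᴴ * H + H * X = 0) (hpos : 0 < tf X X) {p q : ι} (hpq : p ≠ q) :
    ∃ (g : ι → ι → ℂ) (μ : ι → ℂ) (ρ : ℝ), ρ ≠ 0 ∧ (∀ i, X *ᵥ g i = μ i • g i) ∧
      (∀ i, (μ i).re = dg p q i * ρ) ∧ ∀ i j, hf H (g i) (g j) = J p q i j := by
  obtain ⟨μ, e, hμ, he0, he⟩ := exists_re_ne_zero hpos
  obtain ⟨v, hv0, hv⟩ := exists_minus hdet hX he0 he
  have h2μ : (2 * μ.re : ℂ) ≠ 0 := mul_ne_zero two_ne_zero (by exact_mod_cast hμ)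
  have hee : hf H e e = 0 := (mul_eq_zero.1 (isotropic hX he)).resolve_left h2μ
  have hvv : hf H v v = 0 := by
    refine (mul_eq_zero.1 (isotropic hX hv)).resolve_left ?_
    rw [Complex.neg_re, Complex.star_def, Complex.conj_re, Complex.ofReal_neg, mul_neg]
    exact neg_ne_zero.2 h2μ
  have hev : hf H e v ≠ 0 := by
    intro h
    refine hL.false hH (u := e) (v := v) (by rw [qf_eq, hee]; rfl) (by rw [qf_eq, hvv]; rfl) h he0
      fun c hc => ?_
    have h1 : c ≠ 0 := by
      rintro rfl
      rw [zero_smul] at hc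
      exact hv0 hc
    have h2 : (-star μ) • (c • e) = μ • (c • e) := by
      rw [← hc, ← hv, hc, mulVec_smul, he, smul_comm]
    rw [← sub_eq_zero, ← sub_smul, ← hc] at h2
    rcases smul_eq_zero.1 h2 with h3 | h3
    · have h4 := congrArg Complex.re h3
      rw [Complex.sub_re, Complex.neg_re, Complex.star_def, Complex.conj_re, Complex.zero_re] at h4
      apply hμ
      linarith
    · exact hv0 h3
  set e' := (hf H e v)⁻¹ • v with he'
  have hee' : hf H e e' = 1 := by rw [he', hf_smul_right, inv_mul_cancel₀ hev]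
  have he'e : hf H e' e = 1 := by rw [hf_swap hH, hee', star_one]
  have he'e' : hf H e' e' = 0 := by rw [he', hf_smul_right, hf_smul_left, hvv, mul_zero, mul_zero]
  have hXe' : X *ᵥ e' = (-star μ) • e' := by rw [he', mulVec_smul, hv, smul_comm]
  obtain ⟨f, ν, hf1, hf2⟩ := exists_fam hH hL hX (p := p) (q := q) he hXe' hee he'e
    ((Finset.univ.erase p).erase q) (by simp) (by simp) hpq
  have hmem : ∀ i, i ≠ p → i ≠ q → i ∈ (Finset.univ.erase p).erase q := by
    intro i h1 h2
    simp [h1, h2]
  refine ⟨fun i => if i = p then e else if i = q then e' else f i,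
    fun i => if i = p then μ else if i = q then -star μ else ν i, μ.re, hμ, ?_, ?_, ?_⟩
  · intro i
    by_cases h1 : i = p
    · simp only [if_pos h1]
      exact he
    · by_cases h2 : i = q
      · simp only [if_neg h1, if_pos h2]
        exact hXe'
      · simp only [if_neg h1, if_neg h2]
        exact (hf1 i (hmem i h1 h2)).1
  · intro i
    unfold dg
    by_cases h1 : i = p
    · simp only [if_pos h1]
      push_cast
      ring
    · by_cases h2 : i = q
      · simp only [if_neg h1, if_pos h2]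
        rw [Complex.neg_re, Complex.star_def, Complex.conj_re]
        push_cast
        ring
      · simp only [if_neg h1, if_neg h2]
        obtain ⟨h3, -, -, h4⟩ := hf1 i (hmem i h1 h2)
        have h5 := isotropic hX h3
        rw [h4] at h5
        have h6 : ((ν i).re : ℂ) = 0 := by
          have h7 : (2 * ((ν i).re : ℂ)) = 0 := by
            have := mul_eq_zero.1 h5
            rcases this with h | h
            · exact h
            · norm_num at h
          exact (mul_eq_zero.1 h7).resolve_left two_ne_zero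
        have h8 : (ν i).re = 0 := by exact_mod_cast h6
        rw [h8]
        push_cast
        ring
  · intro i j
    unfold J
    rw [of_apply]
    by_cases h1 : i = p
    · simp only [if_pos h1]
      by_cases h2 : j = p
      · simp only [if_pos h2]
        rw [hee, if_neg (h2 ▸ hpq)]
      · by_cases h3 : j = q
        · simp only [if_neg h2, if_pos h3]
          exact hee'
        · simp only [if_neg h2, if_neg h3]
          exact (hf1 j (hmem j h2 h3)).2.1
    · by_cases h1' : i = q
      · simp only [if_neg h1, if_pos h1']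
        by_cases h2 : j = p
        · simp only [if_pos h2]
          exact he'e
        · by_cases h3 : j = q
          · simp only [if_neg h2, if_pos h3]
            exact he'e'
          · simp only [if_neg h2, if_neg h3]
            exact (hf1 j (hmem j h2 h3)).2.2.1
      · simp only [if_neg h1, if_neg h1']
        obtain ⟨-, h4, h5, h6⟩ := hf1 i (hmem i h1 h1')
        by_cases h2 : j = p
        · simp only [if_pos h2]
          rw [hf_swap hH, h4, star_zero, if_neg (h2 ▸ h1)]
        · by_cases h3 : j = q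
          · simp only [if_neg h2, if_pos h3]
            rw [hf_swap hH, h5, star_zero, if_neg (h3 ▸ h1')]
          · simp only [if_neg h2, if_neg h3]
            by_cases hij : i = j
            · subst hij
              rw [if_pos rfl]
              exact h6
            · rw [if_neg hij]
              exact hf2 i (hmem i h1 h1') j (hmem j h2 h3) hij

end Pool.Agent.W5h86.LZ
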